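import Mathlib
import Pool.Agent.Helper66.FQ.Stm
import Pool.Graph.R_seed8.Helper226.Dim

/-! Proof of `DimLower` (module for the project FQ of helper66). -/

set_option autoImplicit false

namespace Pool.Agent.Helper45.FQ

open MvPolynomial

/-- The height of a maximal ideal of a polynomial ring over a field. -/
lemma height_max {k : Type} [Field k] {ι : Type} [Fintype ι] (m : Ideal (MvPolynomial ι k))
    (hm : m.IsMaximal) : m.height = Fintype.card ι := by
  let e := (MvPolynomial.renameEquiv k (Fintype.equivFin ι)).toRingEquiv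
  have h1 : (m.map e).height = m.height := e.height_map m
  have hM : (m.map e).IsMaximal := Ideal.map_isMaximal_of_equiv e
  rw [← h1, Pool.Agent.Helper226.mvPolynomial_height k _ _ hM]

/-- The coordinates of the base together with the chosen ones. -/
def S0 {L σ τ : Type} (x : σ ⊕ τ → L) (T : Finset τ) : Set L :=
  (Set.range fun s : σ => x (Sum.inl s)) ∪ (fun t => x (Sum.inr t)) '' (T : Set τ)

section
variable {k L : Type} [Field k] [Field L] [Algebra k L] {σ τ : Type} [DecidableEq τ]
  (x : σ ⊕ τ → L) (T : Finset τ)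

/-- The field generated by them. -/
abbrev K1 : IntermediateField k L := IntermediateField.adjoin k (S0 x T)

omit [DecidableEq τ] in
lemma mem_l (s : σ) : x (Sum.inl s) ∈ K1 (k := k) x T :=
  IntermediateField.subset_adjoin _ _ (Or.inl ⟨s, rfl⟩)

omit [DecidableEq τ] in
lemma mem_r (t : τ) (ht : t ∈ T) : x (Sum.inr t) ∈ K1 (k := k) x T :=
  IntermediateField.subset_adjoin _ _ (Or.inr ⟨t, ht, rfl⟩)

/-- The substitution. -/
noncomputable def phi : MvPolynomial (σ ⊕ τ) k →ₐ[k] MvPolynomial {t : τ // t ∉ T} (K1 (k := k) x T) :=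
  aeval (Sum.elim (fun s => C ⟨x (Sum.inl s), mem_l x T s⟩)
    (fun t => if h : t ∈ T then C ⟨x (Sum.inr t), mem_r x T t h⟩ else X ⟨t, h⟩))

/-- The evaluation of the remaining variables. -/
noncomputable def ev : MvPolynomial {t : τ // t ∉ T} (K1 (k := k) x T) →ₐ[K1 (k := k) x T] L :=
  aeval (fun t => x (Sum.inr t.1))

lemma ev_phi (p : MvPolynomial (σ ⊕ τ) k) : ev (k := k) x T (phi x T p) = aeval x p := by
  have h : ((ev (k := k) x T).restrictScalars k).comp (phi x T) = aeval x := by
    apply MvPolynomial.algHom_ext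
    rintro (s | t)
    · simp [ev, phi]
    · by_cases h : t ∈ T
      · simp [ev, phi, h]
      · simp [ev, phi, h]
  exact DFunLike.congr_fun h p

lemma clear_adjoin (r : L) (hr : r ∈ Algebra.adjoin k (S0 x T)) :
    ∃ (h : r ∈ K1 (k := k) x T) (R : MvPolynomial (σ ⊕ τ) k), phi x T R = C ⟨r, h⟩ := by
  induction hr using Algebra.adjoin_induction with
  | mem r hr =>
    rcases hr with ⟨s, rfl⟩ | ⟨t, ht, rfl⟩
    · exact ⟨mem_l x T s, X (Sum.inl s), by simp [phi]⟩
    · have ht' : t ∈ T := ht
      exact ⟨mem_r x T t ht, X (Sum.inr t), by simp [phi, ht']⟩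
  | algebraMap r =>
    refine ⟨IntermediateField.algebraMap_mem _ r, C r, ?_⟩
    simp only [phi]
    rw [aeval_C]
    rfl
  | add a b _ _ ha hb =>
    obtain ⟨h1, A, hA⟩ := ha
    obtain ⟨h2, B, hB⟩ := hb
    refine ⟨add_mem h1 h2, A + B, ?_⟩
    rw [map_add, hA, hB, ← map_add]
    rfl
  | mul a b _ _ ha hb =>
    obtain ⟨h1, A, hA⟩ := ha
    obtain ⟨h2, B, hB⟩ := hb
    refine ⟨mul_mem h1 h2, A * B, ?_⟩
    rw [map_mul, hA, hB, ← map_mul]
    rfl

lemma clear_const (a : K1 (k := k) x T) : ∃ c : K1 (k := k) x T, c ≠ 0 ∧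
    (∃ R : MvPolynomial (σ ⊕ τ) k, phi x T R = C c) ∧
    ∃ H : MvPolynomial (σ ⊕ τ) k, phi x T H = C (c * a) := by
  obtain ⟨r, hr, s, hs, e⟩ := IntermediateField.mem_adjoin_iff_div.1 a.2
  obtain ⟨h1, A, hA⟩ := clear_adjoin x T r hr
  obtain ⟨h2, B, hB⟩ := clear_adjoin x T s hs
  by_cases h0 : s = 0
  · refine ⟨1, one_ne_zero, ⟨1, by simp⟩, 0, ?_⟩
    have : a = 0 := by
      apply Subtype.ext
      rw [e, h0, div_zero]
      rfl
    simp [this]
  · refine ⟨⟨s, h2⟩, ?_, ⟨B, hB⟩, A, ?_⟩
    · intro h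
      exact h0 (congrArg Subtype.val h)
    · rw [hA]
      congr 1
      apply Subtype.ext
      change r = s * a
      rw [e]
      field_simp

lemma clear (g : MvPolynomial {t : τ // t ∉ T} (K1 (k := k) x T)) :
    ∃ c : K1 (k := k) x T, c ≠ 0 ∧ (∃ R : MvPolynomial (σ ⊕ τ) k, phi x T R = C c) ∧
    ∃ H : MvPolynomial (σ ⊕ τ) k, phi x T H = C c * g := by
  induction g using MvPolynomial.induction_on with
  | C a =>
    obtain ⟨c, h1, h2, H, hH⟩ := clear_const x T a
    exact ⟨c, h1, h2, H, by rw [hH, C_mul]⟩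
  | add p q hp hq =>
    obtain ⟨c, h1, ⟨R, hR⟩, H, hH⟩ := hp
    obtain ⟨c', h1', ⟨R', hR'⟩, H', hH'⟩ := hq
    refine ⟨c * c', mul_ne_zero h1 h1', ⟨R * R', by rw [map_mul, hR, hR', C_mul]⟩,
      R' * H + R * H', ?_⟩
    rw [map_add, map_mul, map_mul, hR, hR', hH, hH', C_mul]
    ring
  | mul_X p t hp =>
    obtain ⟨c, h1, h2, H, hH⟩ := hp
    refine ⟨c, h1, h2, H * X (Sum.inr t.1), ?_⟩
    have : phi (k := k) x T (X (Sum.inr t.1)) = X t := by
      simp [phi, t.2]
    rw [map_mul, hH, this, mul_assoc]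

end

theorem core {k L : Type} [Field k] [Field L] [Algebra k L] {σ τ κ₀ κ₁ : Type} [Fintype σ]
    [Fintype τ] [DecidableEq τ] [Fintype κ₀] [Fintype κ₁] (F : κ₀ → MvPolynomial σ k)
    (G : κ₁ → MvPolynomial (σ ⊕ τ) k) (x : σ ⊕ τ → L)
    (hP : RingHom.ker (aeval x : MvPolynomial (σ ⊕ τ) k →ₐ[k] L) ∈
      (Ideal.span (Set.range (Sum.elim (fun i => rename Sum.inl (F i)) G))).minimalPrimes)
    (T : Finset τ) (halg : ∀ j ∉ T, IsAlgebraic (K1 (k := k) x T) (x (Sum.inr j))) :
    Fintype.card τ ≤ T.card + Fintype.card κ₁ := by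
  classical
  set P1 : Ideal (MvPolynomial {t : τ // t ∉ T} (K1 (k := k) x T)) := RingHom.ker (ev (k := k) x T)
    with hP1
  have hmax : P1.IsMaximal := by
    have hal : ∀ y ∈ (ev (k := k) x T).range, IsAlgebraic (K1 (k := k) x T) y := by
      intro y hy
      have : (ev (k := k) x T).range = Algebra.adjoin (K1 (k := k) x T)
          (Set.range fun t : {t : τ // t ∉ T} => x (Sum.inr t.1)) := by
        rw [Algebra.adjoin_range_eq_range_aeval]
        rfl
      rw [this] at hy
      have h2 : Algebra.adjoin (K1 (k := k) x T)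
          (Set.range fun t : {t : τ // t ∉ T} => x (Sum.inr t.1)) ≤
          (algebraicClosure (K1 (k := k) x T) L).toSubalgebra := by
        apply Algebra.adjoin_le
        rintro _ ⟨t, rfl⟩
        exact mem_algebraicClosure_iff.2 (halg t.1 t.2)
      exact mem_algebraicClosure_iff.1 (h2 hy)
    have hfield : IsField (ev (k := k) x T).range := by
      have : Algebra.IsAlgebraic (K1 (k := k) x T) (ev (k := k) x T).range := by
        constructor
        intro y
        exact (isAlgebraic_algHom_iff (ev (k := k) x T).range.val Subtype.val_injective).1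
          (hal y.1 y.2)
      exact isField_of_isIntegral_of_isField' (R := K1 (k := k) x T) (Field.toIsField _)
    let := hfield.toField
    have h3 : RingHom.ker (ev (k := k) x T).rangeRestrict = P1 := by
      rw [hP1]
      ext p
      simp only [RingHom.mem_ker]
      constructor
      · intro h
        exact congrArg Subtype.val h
      · intro h
        exact Subtype.ext h
    rw [← h3]
    exact RingHom.ker_isMaximal_of_surjective _ (ev (k := k) x T).rangeRestrict_surjective
  have hht := height_max P1 hmax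
  have hFP : ∀ i, aeval (fun s => x (Sum.inl s)) (F i) = 0 := by
    intro i
    have h1 : rename Sum.inl (F i) ∈ RingHom.ker (aeval x : MvPolynomial (σ ⊕ τ) k →ₐ[k] L) :=
      hP.1.2 (Ideal.subset_span ⟨Sum.inl i, rfl⟩)
    rw [RingHom.mem_ker] at h1
    have h2 : aeval x (rename Sum.inl (F i)) = aeval (fun s => x (Sum.inl s)) (F i) := by
      rw [aeval_rename]
      rfl
    rw [← h2]
    exact h1
  have hFphi : ∀ i, phi (k := k) x T (rename Sum.inl (F i)) = 0 := by
    intro i
    have h1 : phi (k := k) x T (rename Sum.inl (F i)) =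
        C (aeval (fun s => (⟨x (Sum.inl s), mem_l x T s⟩ : K1 (k := k) x T)) (F i)) := by
      simp only [phi]
      rw [aeval_rename]
      have h2 : ((Sum.elim (fun s => C ⟨x (Sum.inl s), mem_l x T s⟩)
        (fun t => if h : t ∈ T then C ⟨x (Sum.inr t), mem_r x T t h⟩ else X ⟨t, h⟩)) ∘ Sum.inl :
          σ → MvPolynomial {t : τ // t ∉ T} (K1 (k := k) x T)) =
          fun s => C ⟨x (Sum.inl s), mem_l x T s⟩ := rfl
      rw [h2]
      have h3 := MvPolynomial.map_aeval
        (fun s => (⟨x (Sum.inl s), mem_l x T s⟩ : K1 (k := k) x T))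
        (C : K1 (k := k) x T →+* MvPolynomial {t : τ // t ∉ T} (K1 (k := k) x T)) (F i)
      rw [h3]
      rfl
    have h4 : aeval (fun s => (⟨x (Sum.inl s), mem_l x T s⟩ : K1 (k := k) x T)) (F i) = 0 := by
      apply Subtype.ext
      have h5 := MvPolynomial.map_aeval
        (fun s => (⟨x (Sum.inl s), mem_l x T s⟩ : K1 (k := k) x T))
        (algebraMap (K1 (k := k) x T) L) (F i)
      have h6 := hFP i
      change algebraMap (K1 (k := k) x T) L _ = 0
      rw [h5, ← h6]
      rfl
    rw [h1, h4, C_0]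
  have hmin : P1 ∈ (Ideal.span (Set.range fun j => phi (k := k) x T (G j))).minimalPrimes := by
    have hpr : P1.IsPrime := hmax.isPrime
    refine ⟨⟨hpr, ?_⟩, ?_⟩
    · rw [Ideal.span_le]
      rintro _ ⟨j, rfl⟩
      have h1 : G j ∈ RingHom.ker (aeval x : MvPolynomial (σ ⊕ τ) k →ₐ[k] L) :=
        hP.1.2 (Ideal.subset_span ⟨Sum.inr j, rfl⟩)
      change ev (k := k) x T (phi x T (G j)) = 0
      rw [ev_phi]
      exact h1
    · rintro Q ⟨hQp, hQ⟩ hQP g hg
      let Q' := Q.comap (phi (k := k) x T)
      have hQ'p : Q'.IsPrime := Ideal.IsPrime.comap _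
      have hle : Ideal.span (Set.range (Sum.elim (fun i => rename Sum.inl (F i)) G)) ≤ Q' := by
        rw [Ideal.span_le]
        rintro _ ⟨i | j, rfl⟩
        · change phi (k := k) x T (rename Sum.inl (F i)) ∈ Q
          rw [hFphi]
          exact Q.zero_mem
        · exact hQ (Ideal.subset_span ⟨j, rfl⟩)
      have hle2 : Q' ≤ RingHom.ker (aeval x : MvPolynomial (σ ⊕ τ) k →ₐ[k] L) := by
        intro p hp
        have h1 : phi (k := k) x T p ∈ P1 := hQP hp
        have h2 : ev (k := k) x T (phi x T p) = 0 := h1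
        rw [ev_phi] at h2
        exact h2
      have hge := hP.2 ⟨hQ'p, hle⟩ hle2
      obtain ⟨c, hc, -, H, hH⟩ := clear x T g
      have h1 : H ∈ RingHom.ker (aeval x : MvPolynomial (σ ⊕ τ) k →ₐ[k] L) := by
        rw [RingHom.mem_ker, ← ev_phi, hH, map_mul]
        have : ev (k := k) x T g = 0 := hg
        rw [this, mul_zero]
      have h2 : C c * g ∈ Q := by
        rw [← hH]
        exact hge h1
      have h3 : (C c⁻¹ : MvPolynomial {t : τ // t ∉ T} (K1 (k := k) x T)) * (C c * g) = g := by
        rw [← mul_assoc, ← C_mul, inv_mul_cancel₀ hc, C_1, one_mul]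
      rw [← h3]
      exact Q.mul_mem_left _ h2
  have hle := Ideal.height_le_card_of_mem_minimalPrimes_span (Set.finite_range _) hmin
  rw [hht] at hle
  have hcard : Fintype.card {t : τ // t ∉ T} = Fintype.card τ - T.card := by
    rw [Fintype.card_subtype_compl (fun t => t ∈ T)]
    simp
  have h5 : (Set.range fun j => phi (k := k) x T (G j)).ncard ≤ Fintype.card κ₁ := by
    have := Set.ncard_image_le (f := fun j => phi (k := k) x T (G j)) (Set.finite_univ (α := κ₁))
    rw [Set.image_univ, Set.ncard_univ, Nat.card_eq_fintype_card] at this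
    exact this
  have h6 : Fintype.card {t : τ // t ∉ T} ≤ Fintype.card κ₁ := by
    have : (Fintype.card {t : τ // t ∉ T} : ℕ∞) ≤
        ((Set.range fun j => phi (k := k) x T (G j)).ncard : ℕ∞) := hle
    exact (Nat.cast_le.1 this).trans h5
  have h7 : T.card ≤ Fintype.card τ := Finset.card_le_univ T
  omega

theorem dimLower : Pool.Agent.Helper66.FQ.DimLower := by
  intro k L _ _ _ σ τ κ₀ κ₁ _ _ _ _ F G x hP
  classical
  set K : IntermediateField k L := IntermediateField.adjoin k (Set.range fun s : σ => x (Sum.inl s))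
    with hK
  let z : τ → L := fun t => x (Sum.inr t)
  obtain ⟨T, hT, hmaxT⟩ := ((Finset.univ : Finset (Finset τ)).filter
    (fun T : Finset τ => AlgebraicIndepOn K z (T : Set τ))).exists_max_image Finset.card
      ⟨∅, by
        rw [Finset.mem_filter]
        refine ⟨Finset.mem_univ _, ?_⟩
        rw [Finset.coe_empty]
        exact algebraicIndependent_empty_type⟩
  rw [Finset.mem_filter] at hT
  refine ⟨T, hT.2, core F G x hP T ?_⟩
  intro j hj
  have h1 : IsAlgebraic (Algebra.adjoin K (z '' (T : Set τ))) (z j) := by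
    by_contra h
    have h2 := AlgebraicIndepOn.insert hT.2 h
    have h3 := hmaxT (insert j T) (by
      rw [Finset.mem_filter]
      refine ⟨Finset.mem_univ _, ?_⟩
      rw [Finset.coe_insert]
      exact h2)
    rw [Finset.card_insert_of_notMem hj] at h3
    omega
  have hsub : ∀ y ∈ Algebra.adjoin K (z '' (T : Set τ)), y ∈ K1 (k := k) x T := by
    intro y hy
    induction hy using Algebra.adjoin_induction with
    | mem r hr =>
      obtain ⟨t, ht, rfl⟩ := hr
      exact mem_r x T t ht
    | algebraMap r =>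
      have : K ≤ K1 (k := k) x T := IntermediateField.adjoin.mono _ _ _ Set.subset_union_left
      exact this r.2
    | add a b _ _ ha hb => exact add_mem ha hb
    | mul a b _ _ ha hb => exact mul_mem ha hb
  let f : Algebra.adjoin K (z '' (T : Set τ)) →+* K1 (k := k) x T :=
    { toFun := fun y => ⟨y.1, hsub y.1 y.2⟩
      map_one' := rfl
      map_mul' := fun _ _ => rfl
      map_zero' := rfl
      map_add' := fun _ _ => rfl }
  let := f.toAlgebra
  have : IsScalarTower (Algebra.adjoin K (z '' (T : Set τ))) (K1 (k := k) x T) L :=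
    IsScalarTower.of_algebraMap_eq (fun _ => rfl)
  exact h1.extendScalars (by
    intro a b hab
    have := congrArg Subtype.val hab
    exact Subtype.ext this)

end Pool.Agent.Helper45.FQ
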