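import Mathlib
import Pool.Agent.Helper66.FQ.Stm
import Pool.Agent.Helper45.FQ.DimLower

/-! Proof of `LinElim` from `DimLower` (module for the project FQ of helper66). -/

set_option autoImplicit false

namespace Pool.Agent.Helper45.FQ

open MvPolynomial

section
variable {k : Type} [Field k] {σ τ ρ : Type} [Fintype ρ] [DecidableEq ρ]

/-- The point `(u, z, w)` from `y = (u, z)` and `w`. -/
def pt {L : Type} (y : σ ⊕ τ → L) (w : ρ → L) : σ ⊕ (τ ⊕ ρ) → L :=
  Sum.elim (fun s => y (Sum.inl s)) (Sum.elim (fun t => y (Sum.inr t)) w)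

lemma cramer_eq {L : Type} [Field L] (N : Matrix ρ ρ L) (b w : ρ → L)
    (h : ∀ i, b i + ∑ a, N i a * w a = 0) (a : ρ) :
    N.det * w a = - (N.adjugate.mulVec b) a := by
  have h1 : N.mulVec w = - b := by
    funext i
    rw [Matrix.mulVec, dotProduct, Pi.neg_apply, eq_neg_iff_add_eq_zero, add_comm]
    exact h i
  have h2 : N.adjugate.mulVec (N.mulVec w) = N.det • w := by
    rw [Matrix.mulVec_mulVec, Matrix.adjugate_mul, Matrix.smul_mulVec, Matrix.one_mulVec]
  have h3 := congrFun h2 a
  rw [h1, Matrix.mulVec_neg, Pi.neg_apply, Pi.smul_apply, smul_eq_mul] at h3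
  exact h3.symm

/-- Elimination of the linear variables from a polynomial. -/
lemma elim_lin (A : ρ → MvPolynomial (σ ⊕ τ) k) (M : Matrix ρ ρ (MvPolynomial (σ ⊕ τ) k))
    (H : MvPolynomial (σ ⊕ (τ ⊕ ρ)) k) :
    ∃ (N : ℕ) (H' : MvPolynomial (σ ⊕ τ) k), ∀ (L : Type) [Field L] [Algebra k L]
      (y : σ ⊕ τ → L) (w : ρ → L)
      (_ : ∀ i, aeval y (A i) + ∑ a, aeval y (M i a) * w a = 0),
      aeval y H' = aeval y M.det ^ N * aeval (pt y w) H := by
  induction H using MvPolynomial.induction_on with
  | C a =>
    refine ⟨0, C a, ?_⟩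
    intro L _ _ y w _
    simp
  | add p q hp hq =>
    obtain ⟨n, p', hp⟩ := hp
    obtain ⟨m, q', hq⟩ := hq
    refine ⟨n + m, M.det ^ m * p' + M.det ^ n * q', ?_⟩
    intro L _ _ y w h
    rw [map_add, map_mul, map_mul, map_pow, map_pow, hp L y w h, hq L y w h, map_add]
    ring
  | mul_X p v hp =>
    obtain ⟨n, p', hp⟩ := hp
    rcases v with s | t | a
    · refine ⟨n, p' * X (Sum.inl s), ?_⟩
      intro L _ _ y w h
      rw [map_mul, hp L y w h, map_mul, aeval_X, aeval_X]
      simp only [pt, Sum.elim_inl]
      ring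
    · refine ⟨n, p' * X (Sum.inr t), ?_⟩
      intro L _ _ y w h
      rw [map_mul, hp L y w h, map_mul, aeval_X, aeval_X]
      simp only [pt, Sum.elim_inl, Sum.elim_inr]
      ring
    · refine ⟨n + 1, p' * (- (M.adjugate.mulVec A) a), ?_⟩
      intro L _ _ y w h
      have h1 := cramer_eq ((aeval y : MvPolynomial (σ ⊕ τ) k →ₐ[k] L).mapMatrix M)
        (fun i => aeval y (A i)) w (by
          intro i
          simpa using h i) a
      have h2 : aeval y M.det = ((aeval y : MvPolynomial (σ ⊕ τ) k →ₐ[k] L).mapMatrix M).det :=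
        AlgHom.map_det _ _
      have h3 : aeval y (- (M.adjugate.mulVec A) a) =
          - ((((aeval y : MvPolynomial (σ ⊕ τ) k →ₐ[k] L).mapMatrix M).adjugate).mulVec
            (fun i => aeval y (A i))) a := by
        rw [map_neg]
        congr 1
        rw [← AlgHom.map_adjugate]
        simp only [Matrix.mulVec, dotProduct, map_sum, map_mul]
        rfl
      rw [map_mul, hp L y w h, h3, ← h1, ← h2, map_mul, aeval_X]
      simp only [pt, Sum.elim_inr]
      ring

end

section
variable {k : Type} [Field k] {σ τ : Type}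

/-- A polynomial in `(u, z)` as a polynomial in `z` over the polynomials in `u`. -/
noncomputable def theta : MvPolynomial (σ ⊕ τ) k →ₐ[k] MvPolynomial τ (MvPolynomial σ k) :=
  aeval (Sum.elim (fun s => C (X s)) (fun t => X t))

lemma theta_eval {L : Type} [CommRing L] [Algebra k L] (f : MvPolynomial σ k →ₐ[k] L) (z : τ → L)
    (H : MvPolynomial (σ ⊕ τ) k) :
    eval₂ f.toRingHom z (theta H) = aeval (Sum.elim (fun s => f (X s)) z) H := by
  have h : ((eval₂Hom f.toRingHom z).comp theta.toRingHom) =
      (aeval (Sum.elim (fun s => f (X s)) z) : MvPolynomial (σ ⊕ τ) k →ₐ[k] L).toRingHom := by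
    apply MvPolynomial.ringHom_ext
    · intro a
      simp only [theta, AlgHom.toRingHom_eq_coe, RingHom.coe_comp, RingHom.coe_coe,
        Function.comp_apply, aeval_C]
      have : (algebraMap k (MvPolynomial τ (MvPolynomial σ k))) a = C (C a) := rfl
      rw [this, coe_eval₂Hom, eval₂_C]
      simp
    · rintro (s | t)
      · simp [theta]
      · simp [theta]
  exact DFunLike.congr_fun h H

end

theorem linElim (hdim : Pool.Agent.Helper66.FQ.DimLower) : Pool.Agent.Helper66.FQ.LinElim := by
  intro k L _ _ _ σ τ κ₀ ρ _ _ _ _ _ F A M x hP hdet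
  classical
  set u : σ → L := fun s => x (Sum.inl s) with hu
  set z : τ → L := fun t => x (Sum.inr (Sum.inl t)) with hz
  set w : ρ → L := fun a => x (Sum.inr (Sum.inr a)) with hw
  set y : σ ⊕ τ → L := Sum.elim (fun s => x (Sum.inl s)) (fun t => x (Sum.inr (Sum.inl t))) with hy
  have hx : x = pt y w := by
    funext v
    rcases v with s | t | a <;> rfl
  -- the linear system
  have hsys : ∀ i, aeval y (A i) + ∑ a, aeval y (M i a) * w a = 0 := by
    intro i
    have h1 := hP.1.2 (Ideal.subset_span ⟨Sum.inr i, rfl⟩)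
    rw [RingHom.mem_ker] at h1
    simp only [Sum.elim_inr, map_add, map_sum, map_mul] at h1
    have h2 : ∀ p : MvPolynomial (σ ⊕ τ) k,
        aeval x (rename (Sum.map id Sum.inl) p) = aeval y p := by
      intro p
      rw [aeval_rename]
      congr 2
      funext v
      rcases v with s | t <;> rfl
    have h3 : ∀ a : ρ, aeval x (X (Sum.inr (Sum.inr a)) : MvPolynomial (σ ⊕ (τ ⊕ ρ)) k) = w a := by
      intro a
      rw [aeval_X]
    simpa [h2, h3] using h1
  have hFP : ∀ i, aeval u (F i) = 0 := by
    intro i
    have h1 := hP.1.2 (Ideal.subset_span ⟨Sum.inl i, rfl⟩)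
    rw [RingHom.mem_ker] at h1
    have h2 : aeval x (rename Sum.inl (F i)) = aeval u (F i) := by
      rw [aeval_rename]
      rfl
    rw [← h2]
    exact h1
  have hdet' : aeval y (Matrix.of M).det ≠ 0 := by
    have h2 : aeval y (Matrix.of M).det =
        ((aeval y : MvPolynomial (σ ⊕ τ) k →ₐ[k] L).mapMatrix (Matrix.of M)).det :=
      AlgHom.map_det _ _
    rw [h2]
    exact hdet
  -- the fields
  have hEsub : ∀ p : MvPolynomial (σ ⊕ τ) k, aeval y p ∈
      IntermediateField.adjoin k (Set.range u ∪ Set.range z) := by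
    intro p
    induction p using MvPolynomial.induction_on with
    | C a =>
      rw [aeval_C]
      exact IntermediateField.algebraMap_mem _ _
    | add p q hp hq =>
      rw [map_add]
      exact add_mem hp hq
    | mul_X p v hp =>
      rw [map_mul, aeval_X]
      refine mul_mem hp ?_
      rcases v with s | t
      · exact IntermediateField.subset_adjoin _ _ (Or.inl ⟨s, rfl⟩)
      · exact IntermediateField.subset_adjoin _ _ (Or.inr ⟨t, rfl⟩)
  have hwE : ∀ a, w a ∈ IntermediateField.adjoin k (Set.range u ∪ Set.range z) := by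
    intro a
    obtain ⟨N, H', h⟩ := elim_lin A (Matrix.of M) (X (Sum.inr (Sum.inr a)))
    have h1 := h L y w hsys
    rw [aeval_X] at h1
    have h2 : w a = aeval y H' / aeval y (Matrix.of M).det ^ N := by
      rw [h1, mul_div_cancel_left₀ _ (pow_ne_zero _ hdet')]
      rfl
    rw [h2]
    exact div_mem (hEsub _) (pow_mem (hEsub _) _)
  have hfield : IntermediateField.adjoin k (Set.range x) =
      IntermediateField.adjoin k (Set.range u ∪ Set.range z) := by
    apply le_antisymm
    · rw [IntermediateField.adjoin_le_iff]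
      rintro _ ⟨s | t | a, rfl⟩
      · exact IntermediateField.subset_adjoin _ _ (Or.inl ⟨s, rfl⟩)
      · exact IntermediateField.subset_adjoin _ _ (Or.inr ⟨t, rfl⟩)
      · exact hwE a
    · apply IntermediateField.adjoin.mono
      rintro _ (⟨s, rfl⟩ | ⟨t, rfl⟩)
      · exact ⟨_, rfl⟩
      · exact ⟨_, rfl⟩
  refine ⟨?_, ?_, hfield⟩
  · -- minimality of the prime ideal of `u`
    have hpp : (RingHom.ker (aeval u : MvPolynomial σ k →ₐ[k] L)).IsPrime := RingHom.ker_isPrime _
    refine ⟨⟨hpp, ?_⟩, ?_⟩
    · rw [Ideal.span_le]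
      rintro _ ⟨i, rfl⟩
      exact hFP i
    · rintro p1 ⟨hp1, hFp1⟩ hle h hh
      let R1 := MvPolynomial σ k ⧸ p1
      let K' := FractionRing R1
      let f1 : MvPolynomial σ k →ₐ[k] K' :=
        (IsScalarTower.toAlgHom k R1 K').comp (Ideal.Quotient.mkₐ k p1)
      have hf1 : ∀ q, f1 q = 0 ↔ q ∈ p1 := by
        intro q
        change algebraMap R1 K' (Ideal.Quotient.mk p1 q) = 0 ↔ _
        rw [map_eq_zero_iff _ (IsFractionRing.injective R1 K'), Ideal.Quotient.eq_zero_iff_mem]
      let E := FractionRing (MvPolynomial τ K')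
      let g1 : MvPolynomial σ k →ₐ[k] E :=
        (IsScalarTower.toAlgHom k K' E).comp f1
      have hg1 : ∀ q, g1 q = 0 ↔ q ∈ p1 := by
        intro q
        rw [← hf1]
        change algebraMap K' E (f1 q) = 0 ↔ _
        rw [map_eq_zero_iff _ (algebraMap K' E).injective]
      let z1 : τ → E := fun t => algebraMap (MvPolynomial τ K') E (X t)
      let y1 : σ ⊕ τ → E := Sum.elim (fun s => g1 (X s)) z1
      have hker : ∀ H : MvPolynomial (σ ⊕ τ) k, aeval y1 H = 0 → aeval y H = 0 := by
        intro H hH
        rw [← theta_eval] at hH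
        have h1 : eval₂ g1.toRingHom z1 (theta H) =
            algebraMap (MvPolynomial τ K') E (map f1.toRingHom (theta H)) := by
          have h2 : (eval₂Hom g1.toRingHom z1) =
              (algebraMap (MvPolynomial τ K') E).comp (map f1.toRingHom) := by
            apply MvPolynomial.ringHom_ext
            · intro r
              rw [coe_eval₂Hom, eval₂_C, RingHom.comp_apply, map_C]
              rfl
            · intro t
              rw [coe_eval₂Hom, eval₂_X, RingHom.comp_apply, map_X]
          exact DFunLike.congr_fun h2 (theta H)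
        rw [h1, map_eq_zero_iff _ (IsFractionRing.injective (MvPolynomial τ K') E)] at hH
        have h3 : map (aeval u : MvPolynomial σ k →ₐ[k] L).toRingHom (theta H) = 0 := by
          ext m
          rw [coeff_map, coeff_zero]
          have h4 := congrArg (coeff m) hH
          rw [coeff_map, coeff_zero] at h4
          exact hle ((hf1 _).1 h4)
        have h5 := theta_eval (aeval u : MvPolynomial σ k →ₐ[k] L) z H
        rw [eval₂_eq_eval_map, h3, map_zero] at h5
        have h6 : y = Sum.elim (fun s => (aeval u : MvPolynomial σ k →ₐ[k] L) (X s)) z := by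
          funext v
          rcases v with s | t
          · change x (Sum.inl s) = aeval u (X s)
            rw [aeval_X]
          · rfl
        rw [h6]
        exact h5.symm
      have hdet1 : aeval y1 (Matrix.of M).det ≠ 0 := fun h => hdet' (hker _ h)
      let N1 : Matrix ρ ρ E := (aeval y1 : MvPolynomial (σ ⊕ τ) k →ₐ[k] E).mapMatrix (Matrix.of M)
      have hN1 : IsUnit N1.det := by
        rw [isUnit_iff_ne_zero]
        have h2 : aeval y1 (Matrix.of M).det = N1.det := AlgHom.map_det _ _
        rw [← h2]
        exact hdet1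
      let b1 : ρ → E := fun i => aeval y1 (A i)
      let w1 : ρ → E := - (N1⁻¹.mulVec b1)
      have hsys1 : ∀ i, aeval y1 (A i) + ∑ a, aeval y1 ((Matrix.of M) i a) * w1 a = 0 := by
        intro i
        have h1 : N1.mulVec w1 = - b1 := by
          change N1.mulVec (- (N1⁻¹.mulVec b1)) = - b1
          rw [Matrix.mulVec_neg, Matrix.mulVec_mulVec, Matrix.mul_nonsing_inv _ hN1,
            Matrix.one_mulVec]
        have h2 := congrFun h1 i
        rw [Matrix.mulVec, dotProduct, Pi.neg_apply, eq_neg_iff_add_eq_zero, add_comm] at h2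
        exact h2
      have hP1 : (RingHom.ker (aeval (pt y1 w1) : MvPolynomial (σ ⊕ (τ ⊕ ρ)) k →ₐ[k] E)).IsPrime :=
        RingHom.ker_isPrime _
      have hEq : Ideal.span (Set.range (Sum.elim (fun i => rename Sum.inl (F i))
        (fun i => rename (Sum.map id Sum.inl) (A i) +
          ∑ a, rename (Sum.map id Sum.inl) (M i a) * X (Sum.inr (Sum.inr a))))) ≤
          RingHom.ker (aeval (pt y1 w1) : MvPolynomial (σ ⊕ (τ ⊕ ρ)) k →ₐ[k] E) := by
        rw [Ideal.span_le]
        rintro _ ⟨i | i, rfl⟩
        · change aeval (pt y1 w1) (rename Sum.inl (F i)) = 0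
          rw [aeval_rename]
          have h1 : (pt y1 w1 ∘ Sum.inl : σ → E) = fun s => g1 (X s) := rfl
          rw [h1]
          have h2 : (aeval (fun s => g1 (X s)) : MvPolynomial σ k →ₐ[k] E) = g1 := by
            apply MvPolynomial.algHom_ext
            intro s
            rw [aeval_X]
          rw [h2]
          exact (hg1 _).2 (hFp1 (Ideal.subset_span ⟨i, rfl⟩))
        · change aeval (pt y1 w1) (rename (Sum.map id Sum.inl) (A i) +
            ∑ a, rename (Sum.map id Sum.inl) (M i a) * X (Sum.inr (Sum.inr a))) = 0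
          have h2 : ∀ p : MvPolynomial (σ ⊕ τ) k,
              aeval (pt y1 w1) (rename (Sum.map id Sum.inl) p) = aeval y1 p := by
            intro p
            rw [aeval_rename]
            congr 2
            funext v
            rcases v with s | t <;> rfl
          have h3 : ∀ a : ρ, aeval (pt y1 w1) (X (Sum.inr (Sum.inr a)) :
              MvPolynomial (σ ⊕ (τ ⊕ ρ)) k) = w1 a := by
            intro a
            rw [aeval_X]
            rfl
          rw [map_add, map_sum, h2]
          simp only [map_mul, h2, h3]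
          exact hsys1 i
      have hle1 : RingHom.ker (aeval (pt y1 w1) : MvPolynomial (σ ⊕ (τ ⊕ ρ)) k →ₐ[k] E) ≤
          RingHom.ker (aeval x : MvPolynomial (σ ⊕ (τ ⊕ ρ)) k →ₐ[k] L) := by
        intro H hH
        rw [RingHom.mem_ker] at hH ⊢
        obtain ⟨N, H', h⟩ := elim_lin A (Matrix.of M) H
        have h1 := h E y1 w1 hsys1
        have h0 : aeval (pt y1 w1) H = 0 := hH
        rw [h0, mul_zero] at h1
        have h2 := hker _ h1
        have h3 := h L y w hsys
        rw [h2, ← hx] at h3
        exact (mul_eq_zero.1 h3.symm).resolve_left (pow_ne_zero _ hdet')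
      have hge := hP.2 ⟨hP1, hEq⟩ hle1
      have h1 : rename Sum.inl h ∈ RingHom.ker (aeval x : MvPolynomial (σ ⊕ (τ ⊕ ρ)) k →ₐ[k] L) := by
        rw [RingHom.mem_ker]
        change aeval x (rename Sum.inl h) = 0
        rw [aeval_rename]
        exact hh
      have h2 := hge h1
      rw [RingHom.mem_ker] at h2
      have h2' : aeval (pt y1 w1) (rename Sum.inl h) = 0 := h2
      rw [aeval_rename] at h2'
      have h3 : (pt y1 w1 ∘ Sum.inl : σ → E) = fun s => g1 (X s) := rfl
      rw [h3] at h2'
      have h4 : (aeval (fun s => g1 (X s)) : MvPolynomial σ k →ₐ[k] E) = g1 := by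
        apply MvPolynomial.algHom_ext
        intro s
        rw [aeval_X]
      rw [h4] at h2'
      exact (hg1 _).1 h2'
  · -- algebraic independence of `z`
    set K : IntermediateField k L := IntermediateField.adjoin k (Set.range u) with hK
    obtain ⟨T, hT, hcard⟩ := hdim k L σ (τ ⊕ ρ) κ₀ ρ F
      (fun i => rename (Sum.map id Sum.inl) (A i) +
          ∑ a, rename (Sum.map id Sum.inl) (M i a) * X (Sum.inr (Sum.inr a))) x hP
    let E' : IntermediateField K L := IntermediateField.adjoin K (Set.range z)
    have hE' : ∀ v ∈ IntermediateField.adjoin k (Set.range u ∪ Set.range z), v ∈ E' := by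
      intro v hv
      have h1 : IntermediateField.adjoin k (Set.range u ∪ Set.range z) ≤
          E'.restrictScalars k := by
        rw [IntermediateField.adjoin_le_iff]
        rintro _ (⟨s, rfl⟩ | ⟨t, rfl⟩)
        · have h2 : u s ∈ K := IntermediateField.subset_adjoin _ _ ⟨s, rfl⟩
          exact IntermediateField.algebraMap_mem E' (⟨u s, h2⟩ : K)
        · exact IntermediateField.subset_adjoin K _ ⟨t, rfl⟩
      exact h1 hv
    have hxE' : ∀ v : τ ⊕ ρ, x (Sum.inr v) ∈ E' := by
      rintro (t | a)
      · exact IntermediateField.subset_adjoin K _ ⟨t, rfl⟩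
      · exact hE' _ (hwE a)
    let z' : τ → E' := fun t => ⟨z t, hxE' (Sum.inl t)⟩
    have hTE : AlgebraicIndependent K (fun i : T => (⟨x (Sum.inr i), hxE' i⟩ : E')) := by
      rw [← AlgHom.algebraicIndependent_iff E'.val Subtype.val_injective]
      exact hT
    have hle : Cardinal.mk τ ≤ Algebra.trdeg K E' := by
      refine le_trans ?_ hTE.cardinalMk_le_trdeg
      rw [Cardinal.mk_fintype, Cardinal.mk_fintype, Fintype.card_coe]
      rw [Fintype.card_sum] at hcard
      exact_mod_cast (by omega : Fintype.card τ ≤ T.card)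
    have halg : Algebra.IsAlgebraic (Algebra.adjoin K (Set.range z')) E' := by
      constructor
      intro e
      obtain ⟨r, hr, s, hs, he⟩ := IntermediateField.mem_adjoin_iff_div.1 e.2
      have hlift : ∀ r ∈ Algebra.adjoin K (Set.range z),
          ∃ r' ∈ Algebra.adjoin K (Set.range z'), (r' : L) = r := by
        intro r hr
        have h1 : (Algebra.adjoin K (Set.range z')).map E'.val = Algebra.adjoin K (Set.range z) := by
          rw [AlgHom.map_adjoin, ← Set.range_comp]
          rfl
        rw [← h1] at hr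
        obtain ⟨r', hr', h2⟩ := hr
        exact ⟨r', hr', h2⟩
      obtain ⟨r', hr', er⟩ := hlift r hr
      obtain ⟨s', hs', es⟩ := hlift s hs
      have h2 : e = r' * s'⁻¹ := by
        apply Subtype.ext
        rw [he, ← er, ← es, div_eq_mul_inv]
        rfl
      rw [h2]
      have h3 : IsAlgebraic (Algebra.adjoin K (Set.range z')) r' :=
        isAlgebraic_algebraMap (⟨r', hr'⟩ : Algebra.adjoin K (Set.range z'))
      have h4 : IsAlgebraic (Algebra.adjoin K (Set.range z')) s' :=
        isAlgebraic_algebraMap (⟨s', hs'⟩ : Algebra.adjoin K (Set.range z'))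
      exact h3.mul h4.inv
    have hfs : FaithfulSMul K E' :=
      (faithfulSMul_iff_algebraMap_injective _ _).2 (algebraMap K E').injective
    have hbasis := Algebra.IsAlgebraic.isTranscendenceBasis_of_le_trdeg_of_finite K z' hle
    exact hbasis.1.map' (f := E'.val) Subtype.val_injective

end Pool.Agent.Helper45.FQ
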